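import Pool.Agent.Q111.KU.Stm

set_option autoImplicit false

/-!
Project KU (helper111): the job HP, large order parameter (helper251).
-/

namespace Pool.Agent.Q251.KU

open Finset
open Pool.Agent.Q111.KU

theorem cs_aux {V : Type} [Fintype V] (b φ : V → ℝ) (hb : ∀ j, 0 ≤ b j) :
    (∑ j, b j * Real.cos (φ j)) ^ 2 + (∑ j, b j * Real.sin (φ j)) ^ 2 ≤ (∑ j, b j) ^ 2 := by
  rw [sq, sq, sq, Finset.sum_mul_sum, Finset.sum_mul_sum, Finset.sum_mul_sum,
    ← Finset.sum_add_distrib]
  refine Finset.sum_le_sum fun i _ => ?_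
  rw [← Finset.sum_add_distrib]
  refine Finset.sum_le_sum fun j _ => ?_
  have h1 := Real.cos_le_one (φ i - φ j)
  rw [Real.cos_sub] at h1
  have h2 : 0 ≤ b i * b j := mul_nonneg (hb i) (hb j)
  nlinarith

theorem t_HP : S_HP := by
  classical
  intro V _ A θ a hA hE hH hD ha hOP
  set n : ℝ := (Fintype.card V : ℝ) with hn
  set C := ∑ k, Real.cos (θ k) with hC
  set S := ∑ k, Real.sin (θ k) with hS
  have hA0 : ∀ i j, 0 ≤ A i j := by
    intro i j
    rcases hA.val i j with h | h <;> rw [h] <;> norm_num
  have hA1 : ∀ i j, 0 ≤ 1 - A i j := by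
    intro i j
    rcases hA.val i j with h | h <;> rw [h] <;> norm_num
  have hp : ∀ i, ∑ j, Real.cos (θ j - θ i) = C * Real.cos (θ i) + S * Real.sin (θ i) := by
    intro i
    simp only [Real.cos_sub, Finset.sum_add_distrib, ← Finset.sum_mul]
    rfl
  have hq : ∀ i, ∑ j, Real.sin (θ j - θ i) = S * Real.cos (θ i) - C * Real.sin (θ i) := by
    intro i
    simp only [Real.sin_sub, Finset.sum_sub_distrib, ← Finset.sum_mul]
    rfl
  set p : V → ℝ := fun i => C * Real.cos (θ i) + S * Real.sin (θ i) with hpd
  set q : V → ℝ := fun i => S * Real.cos (θ i) - C * Real.sin (θ i) with hqd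
  have hcs : ∀ i, 0 ≤ ∑ j, A i j * Real.cos (θ j - θ i) := by
    intro i
    have h1 := hH (fun k => if k = i then 1 else 0)
    have h2 : ∑ k, ∑ l, A k l * Real.cos (θ k - θ l) *
        ((if k = i then (1 : ℝ) else 0) - (if l = i then 1 else 0)) ^ 2 ≤
        2 * ∑ j, A i j * Real.cos (θ j - θ i) := by
      have h3 : ∀ k l, A k l * Real.cos (θ k - θ l) *
          ((if k = i then (1 : ℝ) else 0) - (if l = i then 1 else 0)) ^ 2 ≤
          (if k = i then A k l * Real.cos (θ k - θ l) else 0) +
          (if l = i then A k l * Real.cos (θ k - θ l) else 0) := by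
        intro k l
        by_cases hk : k = i
        · by_cases hl : l = i
          · rw [if_pos hk, if_pos hl, if_pos hk, if_pos hl, hk, hl, sub_self, sub_self,
              Real.cos_zero]
            have := hA0 i i
            nlinarith
          · rw [if_pos hk, if_neg hl, if_pos hk, if_neg hl]
            simp
        · by_cases hl : l = i
          · rw [if_neg hk, if_pos hl, if_neg hk, if_pos hl]
            simp
          · rw [if_neg hk, if_neg hl, if_neg hk, if_neg hl]
            simp
      refine (Finset.sum_le_sum fun k _ => Finset.sum_le_sum fun l _ => h3 k l).trans ?_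
      simp only [Finset.sum_add_distrib]
      have h4 : ∑ k, ∑ l, (if k = i then A k l * Real.cos (θ k - θ l) else 0) =
          ∑ j, A i j * Real.cos (θ j - θ i) := by
        rw [Finset.sum_eq_single i]
        · refine Finset.sum_congr rfl fun l _ => ?_
          rw [if_pos rfl, ← Real.cos_neg, neg_sub]
        · intro k _ hk
          simp [hk]
        · intro h; exact absurd (Finset.mem_univ i) h
      have h5 : ∑ k, ∑ l, (if l = i then A k l * Real.cos (θ k - θ l) else 0) =
          ∑ j, A i j * Real.cos (θ j - θ i) := by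
        refine Finset.sum_congr rfl fun k _ => ?_
        rw [Finset.sum_ite_eq' Finset.univ i, if_pos (Finset.mem_univ i), hA.symm k i]
      rw [h4, h5]
      linarith
    linarith
  have hpB : ∀ i, ∑ j, (1 - A i j) * Real.cos (θ j - θ i) ≤ p i := by
    intro i
    have h1 : ∑ j, (1 - A i j) * Real.cos (θ j - θ i) =
        ∑ j, Real.cos (θ j - θ i) - ∑ j, A i j * Real.cos (θ j - θ i) := by
      rw [← Finset.sum_sub_distrib]
      refine Finset.sum_congr rfl fun j _ => ?_
      ring
    rw [h1, hp i]
    have := hcs i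
    linarith
  have hqB : ∀ i, ∑ j, (1 - A i j) * Real.sin (θ j - θ i) = q i := by
    intro i
    have h1 : ∑ j, (1 - A i j) * Real.sin (θ j - θ i) =
        ∑ j, Real.sin (θ j - θ i) - ∑ j, A i j * Real.sin (θ j - θ i) := by
      rw [← Finset.sum_sub_distrib]
      refine Finset.sum_congr rfl fun j _ => ?_
      ring
    rw [h1, hq i, hE i, sub_zero]
  have hpq : ∀ i, p i ^ 2 + q i ^ 2 = OP θ := by
    intro i
    have h1 := Real.sin_sq_add_cos_sq (θ i)
    simp only [hpd, hqd, OP]
    rw [← hC, ← hS]
    linear_combination (C ^ 2 + S ^ 2) * h1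
  have hppos : ∀ i, 0 < p i := by
    intro i
    by_contra h
    push Not at h
    have h1 := cs_aux (fun j => 1 - A i j) (fun j => θ j - θ i) (hA1 i)
    have h2 := hpB i
    have h3 := hqB i
    rw [h3] at h1
    have h4 : p i ^ 2 ≤ (∑ j, (1 - A i j) * Real.cos (θ j - θ i)) ^ 2 := by nlinarith
    have h5 := hD i
    have h6 : 0 ≤ ∑ j, (1 - A i j) := Finset.sum_nonneg fun j _ => hA1 i j
    have h7 : (∑ j, (1 - A i j)) ^ 2 ≤ (a * n) ^ 2 := pow_le_pow_left₀ h6 h5 2
    have h8 := hpq i
    linarith
  have hid : ∀ i j, (q i - q j) * Real.sin (θ j - θ i) =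
      (p i + p j) * (1 - Real.cos (θ i - θ j)) := by
    intro i j
    simp only [hpd, hqd]
    rw [Real.sin_sub, Real.cos_sub]
    have h1 := Real.sin_sq_add_cos_sq (θ i)
    have h2 := Real.sin_sq_add_cos_sq (θ j)
    linear_combination (Real.cos (θ j) * C + Real.sin (θ j) * S) * h1 +
      (Real.cos (θ i) * C + Real.sin (θ i) * S) * h2
  have hsum0 : ∑ i, ∑ j, A i j * ((p i + p j) * (1 - Real.cos (θ i - θ j))) = 0 := by
    have h1 : ∑ i, ∑ j, A i j * ((p i + p j) * (1 - Real.cos (θ i - θ j))) =
        ∑ i, ∑ j, q i * (A i j * Real.sin (θ j - θ i)) +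
        ∑ i, ∑ j, q j * (A j i * Real.sin (θ i - θ j)) := by
      rw [← Finset.sum_add_distrib]
      refine Finset.sum_congr rfl fun i _ => ?_
      rw [← Finset.sum_add_distrib]
      refine Finset.sum_congr rfl fun j _ => ?_
      rw [← hid i j, hA.symm j i, ← neg_sub (θ j) (θ i), Real.sin_neg]
      ring
    rw [h1, Finset.sum_comm (f := fun i j => q j * (A j i * Real.sin (θ i - θ j)))]
    simp only [← Finset.mul_sum]
    have h2 : ∀ i, ∑ j, A i j * Real.sin (θ j - θ i) = 0 := hE
    simp [h2]
  have hterm : ∀ i j, 0 ≤ A i j * ((p i + p j) * (1 - Real.cos (θ i - θ j))) := by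
    intro i j
    have h1 := hppos i
    have h2 := hppos j
    have h3 := Real.cos_le_one (θ i - θ j)
    have h4 := hA0 i j
    have h5 : 0 ≤ 1 - Real.cos (θ i - θ j) := by linarith
    positivity
  have hone : ∀ i j, A i j = 1 → Real.cos (θ i - θ j) = 1 := by
    intro i j hij
    have h1 := (Finset.sum_eq_zero_iff_of_nonneg fun i _ =>
      Finset.sum_nonneg fun j _ => hterm i j).1 hsum0 i (Finset.mem_univ i)
    have h2 := (Finset.sum_eq_zero_iff_of_nonneg fun j _ => hterm i j).1 h1 j (Finset.mem_univ j)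
    rw [hij, one_mul] at h2
    have h3 : p i + p j ≠ 0 := by
      have := hppos i
      have := hppos j
      linarith
    have h4 := (mul_eq_zero.1 h2).resolve_left h3
    linarith
  intro i k
  have hn0 : 0 < n := by
    have : 0 < Fintype.card V := Fintype.card_pos_iff.2 ⟨i⟩
    rw [hn]
    exact_mod_cast this
  obtain ⟨j, h1, h2⟩ : ∃ j, A i j = 1 ∧ A k j = 1 := by
    by_contra hcon
    push Not at hcon
    have h3 : ∀ j, 1 ≤ (1 - A i j) + (1 - A k j) := by
      intro j
      rcases hA.val i j with h | h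
      · have := hA1 k j
        rw [h]
        linarith
      · have h4 := hcon j h
        rcases hA.val k j with h5 | h5
        · rw [h, h5]; norm_num
        · exact absurd h5 h4
    have h4 : n ≤ ∑ j, ((1 - A i j) + (1 - A k j)) := by
      have h5 := Finset.sum_le_sum (fun j (_ : j ∈ Finset.univ) => h3 j)
      simpa [hn] using h5
    rw [Finset.sum_add_distrib] at h4
    have h5 := hD i
    have h6 := hD k
    nlinarith
  have h3 := hone i j h1
  have h4 := hone k j h2
  have h5 : Real.sin (θ i - θ j) = 0 := by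
    have := Real.sin_sq_add_cos_sq (θ i - θ j)
    rw [h3] at this
    have h6 : Real.sin (θ i - θ j) ^ 2 = 0 := by linarith
    exact pow_eq_zero_iff (two_ne_zero) |>.1 h6
  rw [show θ i - θ k = (θ i - θ j) - (θ k - θ j) by ring, Real.cos_sub, h3, h4, h5]
  ring

end Pool.Agent.Q251.KU
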